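import Mathlib
import Pool.Agent.Helper359.Core

/-!
Equality case of the bound `θ(C) ≤ (4/3) δ(C)` for centrally symmetric plane convex bodies.
-/

set_option autoImplicit false

namespace Pool.Agent.Results.MP_42fa54_co.CentrallySymmetric

open MeasureTheory Filter Set
open scoped ENNReal

/-- the Euclidean plane -/
abbrev Plane := EuclideanSpace ℝ (Fin 2)

/-- `A` is a congruent copy of `C`: the image of `C` under an isometry of the plane. -/
def IsCopy (C A : Set Plane) : Prop := ∃ φ : Plane ≃ᵢ Plane, A = φ '' C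

/-- The total area of the members of the arrangement that lie in the closed disc of radius `r`
around the origin, divided by the area of that disc. -/
noncomputable def densityAt (𝒜 : Set (Set Plane)) (r : ℝ) : ℝ≥0∞ :=
  (∑' A : {A : Set Plane // A ∈ 𝒜 ∧ A ⊆ Metric.closedBall 0 r}, volume (A : Set Plane))
    / volume (Metric.closedBall (0 : Plane) r)

/-- upper density of an arrangement -/
noncomputable def upperDensity (𝒜 : Set (Set Plane)) : ℝ≥0∞ := limsup (densityAt 𝒜) atTop

/-- lower density of an arrangement -/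
noncomputable def lowerDensity (𝒜 : Set (Set Plane)) : ℝ≥0∞ := liminf (densityAt 𝒜) atTop

/-- packings by congruent copies of `C` -/
structure IsPacking (C : Set Plane) (𝒜 : Set (Set Plane)) : Prop where
  copies : ∀ A ∈ 𝒜, IsCopy C A
  disjoint : ∀ A ∈ 𝒜, ∀ B ∈ 𝒜, A ≠ B → Disjoint (interior A) (interior B)

/-- coverings of the plane by congruent copies of `C` -/
structure IsCovering (C : Set Plane) (𝒜 : Set (Set Plane)) : Prop where
  copies : ∀ A ∈ 𝒜, IsCopy C A
  covers : ⋃₀ 𝒜 = univ

/-- `δ(C)`: the supremum of the upper densities of the packings by congruent copies of `C` -/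
noncomputable def packingDensity (C : Set Plane) : ℝ≥0∞ :=
  sSup {d | ∃ 𝒜 : Set (Set Plane), IsPacking C 𝒜 ∧ d = upperDensity 𝒜}

/-- `θ(C)`: the infimum of the lower densities of the coverings by congruent copies of `C` -/
noncomputable def coveringDensity (C : Set Plane) : ℝ≥0∞ :=
  sInf {d | ∃ 𝒜 : Set (Set Plane), IsCovering C 𝒜 ∧ d = lowerDensity 𝒜}

theorem isCopy_translate (C K : Set Plane) (c : Plane) (hK : K = (fun x => -c + x) '' C)
    (t : Plane) : IsCopy C ((fun x => t + x) '' K) := by
  refine ⟨IsometryEquiv.addLeft (t + -c), ?_⟩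
  rw [hK, Set.image_image]
  apply Set.image_congr
  intro x _
  simp only [IsometryEquiv.addLeft_apply]
  abel

/-- Let `C` be a centrally symmetric plane convex body with `θ(C) = (4/3) δ(C)`. Then
`δ(C) = π/(2√3)` and `θ(C) = 2π/(3√3)`. -/
theorem result (C : Set Plane) (hcpt : IsCompact C) (hconv : Convex ℝ C)
    (hint : (interior C).Nonempty) (hsymm : ∃ c : Plane, ∀ x ∈ C, (2:ℝ) • c - x ∈ C)
    (h : coveringDensity C = ENNReal.ofReal (4 / 3) * packingDensity C) :
    packingDensity C = ENNReal.ofReal (Real.pi / (2 * √3)) ∧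
      coveringDensity C = ENNReal.ofReal (2 * Real.pi / (3 * √3)) := by
  obtain ⟨c, hc⟩ := hsymm
  obtain ⟨K, hK⟩ : ∃ K : Set Plane, K = (fun x => -c + x) '' C := ⟨_, rfl⟩
  have hKc : IsCompact K := by
    rw [hK]
    exact hcpt.image (by fun_prop)
  have hKconv : Convex ℝ K := by
    rw [hK]
    exact hconv.translate (-c)
  have hKs : ∀ x ∈ K, -x ∈ K := by
    rw [hK]
    rintro _ ⟨x, hx, rfl⟩
    refine ⟨(2:ℝ) • c - x, hc x hx, ?_⟩
    rw [two_smul]
    simp only
    abel
  have hKint : (interior K).Nonempty := by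
    rw [hK, Helper359.translate_interior]
    exact hint.image _
  have h0 := Helper359.nhds_zero_of_interior hKconv hKs hKint
  have hN := Helper359.isNm_gauge hKc hKconv hKs h0
  have hKe := Helper359.eq_gauge hKc hKconv h0
  have hmem : ∀ y, gauge K y ≤ 1 → y ∈ K := by
    intro y hy
    rw [← hKe]
    exact hy
  obtain ⟨R, hR⟩ := hKc.isBounded.subset_closedBall (0 : Plane)
  have hv0 : volume K ≠ 0 := by
    have := (isOpen_interior.measure_pos volume hKint).trans_le (measure_mono interior_subset)
    exact this.ne'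
  have hv1 : volume K ≠ ∞ := hKc.measure_lt_top.ne
  have hcore := Helper359.core hN (δ := packingDensity C) (θ := coveringDensity C)
    (by rw [hKe]; exact hv0) (by rw [hKe]; exact hv1) ?_ ?_ h
  · exact ⟨hcore.1, hcore.2.1⟩
  · intro a b hab
    rw [hKe]
    have hdt : Helper359.dt ((2:ℝ) • a) ((2:ℝ) • b) = 4 * Helper359.dt a b := by
      simp [Helper359.dt]; ring
    have hpos := hab.hd
    have hne : Helper359.dt ((2:ℝ) • a) ((2:ℝ) • b) ≠ 0 := by
      rw [hdt]; positivity
    have hpk : ∀ v w : ℤ × ℤ, v ≠ w → Disjoint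
        (interior ((fun x => Helper359.pt ((2:ℝ) • a) ((2:ℝ) • b) v + x) '' K))
        (interior ((fun x => Helper359.pt ((2:ℝ) • a) ((2:ℝ) • b) w + x) '' K)) :=
      fun v w hvw => Helper359.packs hKc hKconv hKs h0 hab hvw
    have hinj : Function.Injective fun v : ℤ × ℤ =>
        (fun x => Helper359.pt ((2:ℝ) • a) ((2:ℝ) • b) v + x) '' K := by
      intro v w hvw
      by_contra hne'
      have hd := hpk v w hne'
      simp only at hvw
      rw [hvw, disjoint_self, Set.bot_eq_empty, Helper359.translate_interior] at hd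
      exact (hKint.image _).ne_empty hd
    have hlow := Helper359.limsup_lower hR hne hinj
    rw [hdt, abs_of_pos (by positivity)] at hlow
    refine hlow.trans ?_
    apply le_sSup
    refine ⟨Helper359.latt K ((2:ℝ) • a) ((2:ℝ) • b), ⟨?_, ?_⟩, rfl⟩
    · rintro _ ⟨v, rfl⟩
      exact isCopy_translate C K c hK _
    · rintro _ ⟨v, rfl⟩ _ ⟨w, rfl⟩ hvw
      exact hpk v w (fun hh => hvw (by rw [hh]))
  · intro a x b ha hx hb h1 h2 h3
    rw [hKe]
    have hdt : Helper359.dt (a + x) (x + b)
        = Helper359.dt a x + Helper359.dt x b + Helper359.dt a b := by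
      simp [Helper359.dt]; ring
    have hne : Helper359.dt (a + x) (x + b) ≠ 0 := by
      rw [hdt]; positivity
    have hup := Helper359.liminf_upper hR hne
    rw [hdt, abs_of_pos (by positivity)] at hup
    refine le_trans ?_ hup
    refine le_trans (b := lowerDensity (Helper359.latt K (a + x) (x + b))) ?_ ?_
    · apply sInf_le
      refine ⟨_, ⟨?_, ?_⟩, rfl⟩
      · rintro _ ⟨v, rfl⟩
        exact isCopy_translate C K c hK _
      · exact Helper359.covers hKconv hKs (hmem a ha) (hmem x hx) (hmem b hb) h1 h2 h3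
    · exact liminf_le_liminf (Eventually.of_forall fun r => Helper359.ratioIn_le_ratioCap _ r)

end Pool.Agent.Results.MP_42fa54_co.CentrallySymmetric
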